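import Mathlib
import Pool.Agent.Y734.I.Stms
import Pool.Agent.TH526.ZL.N
import Pool.Agent.TH551.SU.Ht

/-!
Job IND (helper734, project Y734/I), by helper239: germs of `S`-units which are multiplicatively
independent modulo constants are algebraically independent.
-/

set_option autoImplicit false

namespace Pool.Agent.Y734.I.IND

open Pool.Agent.Y734.I Filter MvPolynomial Pool.Agent.TH551.SU

/-- the enumeration of a finite set of primes -/
noncomputable def bb (S : Finset ℕ) : Fin S.card → ℕ := fun v => (S.equivFin.symm v : ℕ)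

theorem bb_mem (S : Finset ℕ) (v : Fin S.card) : bb S v ∈ S := (S.equivFin.symm v).2

theorem bb_inj (S : Finset ℕ) : Function.Injective (bb S) := by
  intro v w h
  exact S.equivFin.symm.injective (Subtype.ext h)

theorem bb_surj (S : Finset ℕ) {p : ℕ} (hp : p ∈ S) : ∃ v, bb S v = p :=
  ⟨S.equivFin ⟨p, hp⟩, by simp [bb]⟩

/-- a rational number without primes outside `S` is an `S`-unit -/
theorem isSU {S : Finset ℕ} (hS : ∀ p ∈ S, p.Prime) {q : ℚ} (hq : q ≠ 0)
    (h : ∀ p : ℕ, p.Prime → p ∉ S → padicValRat p q = 0) : IsSU (bb S) q := by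
  have hb0 : ∀ v, bb S v ≠ 0 := fun v => (hS _ (bb_mem S v)).ne_zero
  have hnum : q.num.natAbs ≠ 0 := by rw [Int.natAbs_ne_zero, Ne, Rat.num_eq_zero]; exact hq
  have hcop : Nat.Coprime q.num.natAbs q.den := q.reduced
  have h1 : IsSU (bb S) ((q.num.natAbs : ℕ) : ℚ) := by
    refine Ht.IsSU.nat hb0 _ hnum ?_
    intro p hp hpd
    apply bb_surj
    by_contra hpS
    have h2 := h p hp hpS
    have : Fact p.Prime := ⟨hp⟩
    have hden : ¬ p ∣ q.den := by
      intro hd
      have := Nat.dvd_gcd hpd hd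
      rw [hcop] at this
      exact hp.one_lt.ne' (Nat.dvd_one.1 this)
    rw [padicValRat, padicValNat.eq_zero_of_not_dvd hden, padicValInt] at h2
    have h3 := one_le_padicValNat_of_dvd hnum hpd
    omega
  have h2 : IsSU (bb S) ((q.den : ℕ) : ℚ) := by
    refine Ht.IsSU.nat hb0 _ q.den_ne_zero ?_
    intro p hp hpd
    apply bb_surj
    by_contra hpS
    have h2 := h p hp hpS
    have : Fact p.Prime := ⟨hp⟩
    have hn : ¬ p ∣ q.num.natAbs := by
      intro hd
      have := Nat.dvd_gcd hd hpd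
      rw [hcop] at this
      exact hp.one_lt.ne' (Nat.dvd_one.1 this)
    rw [padicValRat, padicValInt, padicValNat.eq_zero_of_not_dvd hn] at h2
    have h3 := one_le_padicValNat_of_dvd q.den_ne_zero hpd
    omega
  have h3 : IsSU (bb S) (q.num : ℚ) := by
    rcases Int.natAbs_eq q.num with h4 | h4
    · have h5 : (q.num : ℚ) = ((q.num.natAbs : ℕ) : ℚ) := by
        conv_lhs => rw [h4]
        rw [Int.cast_natCast]
      rw [h5]; exact h1
    · have h5 : (q.num : ℚ) = -((q.num.natAbs : ℕ) : ℚ) := by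
        conv_lhs => rw [h4]
        rw [Int.cast_neg, Int.cast_natCast]
      rw [h5]; exact Ht.IsSU.neg h1
  have h4 := Ht.IsSU.mul hb0 h3 (Ht.IsSU.inv h2)
  rw [← div_eq_mul_inv, Rat.num_div_den] at h4
  exact h4

theorem isSU_pow {s : ℕ} {b : Fin s → ℕ} (hb : ∀ v, b v ≠ 0) {x : ℚ} (h : IsSU b x) (n : ℕ) :
    IsSU b (x ^ n) := by
  induction n with
  | zero => rw [pow_zero]; exact Ht.IsSU.one b
  | succ n ih => rw [pow_succ]; exact Ht.IsSU.mul hb ih h

theorem isSU_prod {s : ℕ} {b : Fin s → ℕ} (hb : ∀ v, b v ≠ 0) {ι : Type} (A : Finset ι)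
    (x : ι → ℚ) (h : ∀ i ∈ A, IsSU b (x i)) : IsSU b (∏ i ∈ A, x i) := by
  classical
  induction A using Finset.induction_on with
  | empty => rw [Finset.prod_empty]; exact Ht.IsSU.one b
  | insert a A ha ih =>
    rw [Finset.prod_insert ha]
    exact Ht.IsSU.mul hb (h a (Finset.mem_insert_self _ _))
      (ih fun i hi => h i (Finset.mem_insert_of_mem hi))

/-- a set of rational numbers of bounded height is finite -/
theorem fin_ht (H : ℕ) : {c : ℚ | c.num.natAbs ≤ H ∧ c.den ≤ H}.Finite := by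
  have h1 : ((Set.Icc (-(H:ℤ)) H) ×ˢ (Set.Icc 0 H)).Finite :=
    (Set.finite_Icc _ _).prod (Set.finite_Icc _ _)
  refine Set.Finite.of_finite_image (f := fun c : ℚ => ((c.num, c.den) : ℤ × ℕ))
    (h1.subset ?_) ?_
  · rintro _ ⟨c, ⟨hc1, hc2⟩, rfl⟩
    simp only [Set.mem_prod, Set.mem_Icc]
    omega
  · intro c _ d _ hcd
    have h2 : c.num = d.num := (Prod.ext_iff.1 hcd).1
    have h3 : c.den = d.den := (Prod.ext_iff.1 hcd).2
    exact Rat.ext h2 h3

theorem ind : IndStmt := by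
  intro U Ω _ _ g S hS m f hf0 hfS hind
  rw [algebraicIndependent_iff]
  intro F hF
  by_contra hF0
  classical
  have hb0 : ∀ v, bb S v ≠ 0 := fun v => (hS _ (bb_mem S v)).ne_zero
  -- the values of the monomials
  set n := F.support.card with hn
  set μ : Fin n → (Fin m →₀ ℕ) := fun j => (F.support.equivFin.symm j : Fin m →₀ ℕ) with hμ
  have hμs : ∀ j, μ j ∈ F.support := fun j => (F.support.equivFin.symm j).2
  have hμi : Function.Injective μ := by
    intro v w h
    exact F.support.equivFin.symm.injective (Subtype.ext h)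
  set x : ℕ → Fin n → ℚ := fun t j => ∏ i, f i t ^ μ j i with hx
  have hxSU : ∀ t j, IsSU (bb S) (x t j) := by
    intro t j
    apply isSU_prod hb0
    intro i _
    apply isSU_pow hb0
    exact isSU hS (hf0 i t) (hfS i t)
  have hx0 : ∀ t j, x t j ≠ 0 := by
    intro t j
    rw [hx]
    exact Finset.prod_ne_zero_iff.2 fun i _ => pow_ne_zero _ (hf0 i t)
  have hsum : ∀ᶠ t in (U : Filter ℕ), ∑ j, F.coeff (μ j) * x t j = 0 := by
    have h1 : g.π (fun t => MvPolynomial.aeval (fun i => ((f i t : ℚ) : ℂ)) F) = 0 := by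
      have := g.aeval (fun t i => ((f i t : ℚ) : ℂ)) F
      rw [← this]; exact hF
    rw [g.ker] at h1
    filter_upwards [h1] with t ht
    have h2 : MvPolynomial.aeval (fun i => ((f i t : ℚ) : ℂ)) F =
        ((MvPolynomial.eval (fun i => f i t) F : ℚ) : ℂ) := by
      rw [MvPolynomial.aeval_def, MvPolynomial.eval₂_eq', MvPolynomial.eval_eq']
      push_cast
      rfl
    rw [h2] at ht
    have h3 : MvPolynomial.eval (fun i => f i t) F = 0 := by exact_mod_cast ht
    rw [MvPolynomial.eval_eq'] at h3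
    rw [← h3, ← Finset.sum_coe_sort F.support]
    exact Fintype.sum_equiv F.support.equivFin.symm _ _ fun j => rfl
  have hn0 : 0 < n := by
    rw [hn, Finset.card_pos]
    exact MvPolynomial.support_nonempty.2 hF0
  obtain ⟨H, hH⟩ := Pool.Agent.TH526.ZL.sunit (bb S) (fun v => hS _ (bb_mem S v)) (bb_inj S)
    (fun j => F.coeff (μ j)) (fun j => MvPolynomial.mem_support_iff.1 (hμs j)) ⟨0, hn0⟩
  set i₀ : Fin n := ⟨0, hn0⟩ with hi₀
  have hev : ∀ᶠ t in (U : Filter ℕ), ∃ j : Fin n, j ≠ i₀ ∧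
      ∃ c ∈ {c : ℚ | c.num.natAbs ≤ H ∧ c.den ≤ H}, x t i₀ / x t j = c := by
    filter_upwards [hsum] with t ht
    obtain ⟨j, hj, h1, h2⟩ := hH (x t) (hxSU t) ht
    exact ⟨j, hj, _, ⟨h1, h2⟩, rfl⟩
  rw [Ultrafilter.eventually_exists_iff] at hev
  obtain ⟨j, hj⟩ := hev
  have hji : j ≠ i₀ := by
    obtain ⟨t, ht⟩ := hj.exists
    exact ht.1
  have hj' : ∀ᶠ t in (U : Filter ℕ), ∃ c ∈ {c : ℚ | c.num.natAbs ≤ H ∧ c.den ≤ H},
      x t i₀ / x t j = c := hj.mono fun t ht => ht.2
  rw [Ultrafilter.eventually_exists_mem_iff (fin_ht H)] at hj'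
  obtain ⟨c, _, hc⟩ := hj'
  -- the relation
  have hπx : ∀ j, g.π (fun t => ((x t j : ℚ) : ℂ)) =
      ∏ i, (g.π (fun t => ((f i t : ℚ) : ℂ))) ^ μ j i := by
    intro j
    simp_rw [← map_pow]
    rw [← map_prod]
    congr 1
    funext t
    rw [hx, Finset.prod_apply]
    push_cast
    rfl
  have hπ0 : ∀ i, g.π (fun t => ((f i t : ℚ) : ℂ)) ≠ 0 := by
    intro i h
    rw [g.ker] at h
    obtain ⟨t, ht⟩ := h.exists
    exact hf0 i t (by exact_mod_cast ht)
  have hrel : g.π (fun t => ((x t i₀ : ℚ) : ℂ)) =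
      algebraMap ℚ Ω c * g.π (fun t => ((x t j : ℚ) : ℂ)) := by
    rw [← g.rat, ← map_mul, g.eq_iff]
    filter_upwards [hc] with t ht
    rw [div_eq_iff (hx0 t j)] at ht
    rw [ht]
    push_cast
    rfl
  refine hind (fun i => (μ i₀ i : ℤ) - μ j i) ?_ c ?_
  · intro h
    apply hji
    apply hμi
    ext i
    have := congrFun h i
    simp only [Pi.zero_apply] at this
    omega
  · have h1 : ∏ i, (g.π (fun t => ((f i t : ℚ) : ℂ))) ^ ((μ i₀ i : ℤ) - μ j i) =
        (∏ i, (g.π (fun t => ((f i t : ℚ) : ℂ))) ^ μ i₀ i) /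
          ∏ i, (g.π (fun t => ((f i t : ℚ) : ℂ))) ^ μ j i := by
      rw [← Finset.prod_div_distrib]
      refine Finset.prod_congr rfl fun i _ => ?_
      rw [zpow_sub₀ (hπ0 i), zpow_natCast, zpow_natCast]
    rw [h1, ← hπx, ← hπx, hrel, mul_div_assoc, div_self, mul_one]
    rw [hπx]
    exact Finset.prod_ne_zero_iff.2 fun i _ => pow_ne_zero _ (hπ0 i)

end Pool.Agent.Y734.I.IND
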